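import Pool.Agent.L7h52.NQ.Stm
import Pool.Agent.TH603.EL.Scal1
import Pool.Agent.TH603.EL.Lead0

set_option autoImplicit false

/-!
# Project NQ, part CEV: the equation of the tube
-/

namespace Pool.Agent.L7h65.NQ

open MvPolynomial Pool.Agent.TH603.EL Pool.Agent.L7h52.NQ
open Pool.Agent.TH603.EL.Lead Pool.Agent.TH603.EL.Scal1

variable {F : Type} [Field F]

/-- the substitution of the tube for polynomials over `F` -/
noncomputable def ph (F : Type) [Field F] (τ s : ℝ) : MvPolynomial (Fin 2) F →+* HR F :=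
  (th F τ s).comp (map (cst F))

lemma ph_C (τ s : ℝ) (c : F) : ph F τ s (C c) = incl (cst F c) := by
  unfold ph th
  rw [RingHom.comp_apply, map_C, coe_eval₂Hom, eval₂_C]

lemma ph_X0 (τ s : ℝ) : ph F τ s (X 0) = tz F τ 1 0 := by
  unfold ph th
  rw [RingHom.comp_apply, map_X, coe_eval₂Hom, eval₂_X, if_pos rfl]

lemma ph_X1 (τ s : ℝ) : ph F τ s (X 1) = tz F (1 - τ) (-1) 0 + tz F (s - τ) (-1) 1 := by
  unfold ph th
  rw [RingHom.comp_apply, map_X, coe_eval₂Hom, eval₂_X, if_neg (by decide)]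

lemma low_mono {B : Type} [Zero B] {x : HahnSeries ℝ B} {a b : ℝ} (h : Low x b) (hab : a ≤ b) :
    Low x a := fun c hc => h c (hc.trans_le hab)

lemma low_add {x y : HR F} {a : ℝ} (hx : Low x a) (hy : Low y a) : Low (x + y) a := by
  intro c hc
  rw [HahnSeries.coeff_add, hx c hc, hy c hc, add_zero]

lemma low_zero {B : Type} [Zero B] (a : ℝ) : Low (0 : HahnSeries ℝ B) a := fun _ _ => rfl

lemma low_tz (a : ℝ) (i j : ℤ) : Low (tz F a i j) a := by
  intro c hc
  unfold tz
  exact HahnSeries.coeff_single_of_ne hc.ne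

lemma low_C (τ s : ℝ) (c : F) : Low (ph F τ s (C c)) 0 := by
  intro a ha
  rw [ph_C]
  ext ⟨i, j⟩
  have h := cf_incl (cst F c) a i j
  unfold cf at h
  rw [h]
  have h2 : (cst F c).coeff a = 0 := by
    unfold cst
    rw [HahnSeries.C_apply]
    exact HahnSeries.coeff_single_of_ne ha.ne
  rw [h2]
  split_ifs <;> rfl

lemma low_X (τ s : ℝ) (i : Fin 2) (hs : 1 < s) : Low (ph F τ s (X i)) (min τ (1 - τ)) := by
  have h2 : i = 0 ∨ i = 1 := by
    fin_cases i
    · exact Or.inl rfl
    · exact Or.inr rfl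
  rcases h2 with h | h
  · rw [h, ph_X0]
    exact low_mono (low_tz _ _ _) (min_le_left _ _)
  · rw [h, ph_X1]
    refine low_add (low_mono (low_tz _ _ _) (min_le_right _ _))
      (low_mono (low_tz _ _ _) ((min_le_right _ _).trans ?_))
    linarith

lemma low_all (τ s : ℝ) (h0 : 0 < τ) (h1 : τ < 1) (hs : 1 < s) (P : MvPolynomial (Fin 2) F) :
    Low (ph F τ s P) 0 := by
  induction P using MvPolynomial.induction_on with
  | C a => exact low_C τ s a
  | add p q hp hq =>
    rw [map_add]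
    exact low_add hp hq
  | mul_X p i hp =>
    rw [map_mul]
    have h3 := lmul hp (low_X τ s i hs)
    refine low_mono h3 ?_
    rw [zero_add]
    exact (lt_min h0 (by linarith)).le

lemma low_mI (τ s : ℝ) (h0 : 0 < τ) (h1 : τ < 1) (hs : 1 < s) {P : MvPolynomial (Fin 2) F}
    (hP : P ∈ mI F) : Low (ph F τ s P) (min τ (1 - τ)) := by
  unfold mI at hP
  induction hP using Submodule.span_induction with
  | mem x hx =>
    rcases hx with h | h
    · rw [h]
      exact low_X τ s 0 hs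
    · rw [Set.mem_singleton_iff] at h
      rw [h]
      exact low_X τ s 1 hs
  | zero =>
    rw [map_zero]
    exact low_zero _
  | add x y _ _ hx hy =>
    rw [map_add]
    exact low_add hx hy
  | smul a x _ hx =>
    rw [smul_eq_mul, map_mul]
    have h3 := lmul (low_all τ s h0 h1 hs a) hx
    rwa [zero_add] at h3

lemma low_pow (τ s : ℝ) (h0 : 0 < τ) (h1 : τ < 1) (hs : 1 < s) (n : ℕ) :
    ∀ P ∈ mI F ^ n, Low (ph F τ s P) (n * min τ (1 - τ)) := by
  induction n with
  | zero =>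
    intro P _
    rw [Nat.cast_zero, zero_mul]
    exact low_all τ s h0 h1 hs P
  | succ n ih =>
    intro P hP
    rw [pow_succ] at hP
    have e : ((n + 1 : ℕ) : ℝ) * min τ (1 - τ) = n * min τ (1 - τ) + min τ (1 - τ) := by
      push_cast
      ring
    rw [e]
    refine Submodule.mul_induction_on hP ?_ ?_
    · intro a ha b hb
      rw [map_mul]
      exact lmul (ih a ha) (low_mI τ s h0 h1 hs hb)
    · intro x y hx hy
      rw [map_add]
      exact low_add hx hy

lemma qv_map {R S : Type*} [CommRing R] [CommRing S] (f : R →+* S) (a b c : R) :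
    f (qv a b c) = qv (f a) (f b) (f c) := by
  unfold qv
  simp only [map_sub, map_mul, map_add, map_pow, map_ofNat]

lemma D4 (v : MvPolynomial (Fin 2) F) : dD (X 0) (X 1 * v) ^ 4 - C 6561 ∈ mI F := by
  have h0 : (X 0 : MvPolynomial (Fin 2) F) ∈ mI F := Ideal.subset_span (Or.inl rfl)
  have h1 : (X 1 : MvPolynomial (Fin 2) F) ∈ mI F := Ideal.subset_span (Or.inr rfl)
  rw [← Ideal.Quotient.eq]
  have e0 := Ideal.Quotient.eq_zero_iff_mem.2 h0
  have e1 := Ideal.Quotient.eq_zero_iff_mem.2 h1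
  unfold dD
  simp only [map_sub, map_mul, map_pow, map_one, map_ofNat, e0, e1]
  norm_num

/-- **CEV** -/
theorem s_CEV : S_CEV := by
  intro F _ _ τ s n v h0 h1 hs hn hS
  obtain ⟨-, herr⟩ := hS
  set D : MvPolynomial (Fin 2) F := dD (X 0) (X 1 * v) with hD
  set N : MvPolynomial (Fin 2) F := nN (X 0) (X 1 * v) with hN
  set err : MvPolynomial (Fin 2) F := 16 * (X 1 * v) * N - X 1 * D ^ 2 with he
  have hxy : ph F τ s (X 0) * ph F τ s (X 1) = tz F 1 0 0 + tz F s 0 1 := by
    rw [ph_X0, ph_X1, mul_add, tz_mul_tz, tz_mul_tz]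
    congr 1
    · congr 1
      ring
    · congr 1
      ring
  have hincl : (incl (HahnSeries.single 1 1 : HK F) : HR F) = tz F 1 0 0 := by
    apply cf_ext
    intro a i j
    have h2 := cf_tz_mul (F := F) 1 1 a 0 0 i j
    rw [mul_one] at h2
    rw [cf_incl, h2]
    unfold cf
    rw [HahnSeries.coeff_one, HahnSeries.coeff_single]
    by_cases ha : a = 1
    · have ha' : a - 1 = 0 := by rw [ha, sub_self]
      rw [if_pos ha', if_pos ha, sub_zero, sub_zero, AddMonoidAlgebra.one_def]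
      have h : ((0 : ℤ × ℤ) = (i, j)) ↔ (i = 0 ∧ j = 0) := by
        rw [Prod.ext_iff]
        simp only [Prod.fst_zero, Prod.snd_zero]
        constructor <;> rintro ⟨h1, h2⟩ <;> exact ⟨h1.symm, h2.symm⟩
      simp [Finsupp.single_apply, h]
    · have ha' : a - 1 ≠ 0 := fun h => ha (by linarith)
      rw [if_neg ha', if_neg ha]
      split_ifs <;> rfl
  have key : ev (tubeU τ s v) (Ct F) = tz F s 0 1 * ph F τ s (D ^ 4) +
      ph F τ s (X 0 * D ^ 2 * err) := by
    have e1 : ev (tubeU τ s v) (Qf (HK F)) = ph F τ s (16 * X 0 * (X 1 * v) * D ^ 2 * N) := by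
      rw [← qv_tube, qv_map]
      unfold Qf
      rw [qv_map]
      unfold ev
      simp only [coe_eval₂Hom, eval₂_X]
      rfl
    have e2 : ev (tubeU τ s v) (C (HahnSeries.single 1 1) * X 0 ^ 4) =
        tz F 1 0 0 * ph F τ s (D ^ 4) := by
      rw [map_mul, map_pow, map_pow, ← hincl]
      unfold ev
      simp only [coe_eval₂Hom, eval₂_X, eval₂_C]
      rfl
    have e3 : (16 * X 0 * (X 1 * v) * D ^ 2 * N : MvPolynomial (Fin 2) F) =
        X 0 * X 1 * D ^ 4 + X 0 * D ^ 2 * err := by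
      rw [he]
      ring
    unfold Ct
    rw [map_sub, e1, e2, e3, map_add, map_mul, map_mul, hxy]
    ring
  have hA : Low (tz F s 0 1 * ph F τ s (D ^ 4)) s := by
    have := lmul (low_tz (F := F) s 0 1) (low_all τ s h0 h1 hs (D ^ 4))
    rwa [add_zero] at this
  have hB : Low (ph F τ s (X 0 * D ^ 2 * err)) (n * min τ (1 - τ)) :=
    low_pow τ s h0 h1 hs n _ (Ideal.mul_mem_left _ _ herr)
  refine ⟨?_, ?_⟩
  · rw [key]
    exact low_add hA (low_mono hB hn.le)
  · intro i j
    have hB0 : (ph F τ s (X 0 * D ^ 2 * err)).coeff s = 0 := hB s hn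
    have e1 : cf (ev (tubeU τ s v) (Ct F)) s i j = cf (tz F s 0 1 * ph F τ s (D ^ 4)) s i j := by
      unfold cf
      rw [key, HahnSeries.coeff_add, hB0, add_zero]
    have e2 : ph F τ s (D ^ 4) = ph F τ s (D ^ 4 - C 6561) + incl (cst F 6561) := by
      rw [map_sub, ph_C, sub_add_cancel]
    have e3 : (ph F τ s (D ^ 4 - C 6561)).coeff 0 = 0 :=
      low_mI τ s h0 h1 hs (D4 v) 0 (lt_min h0 (by linarith))
    rw [e1, cf_tz_mul, sub_self, sub_zero]
    have e4 : cf (ph F τ s (D ^ 4)) 0 i (j - 1) = cf (incl (cst F 6561)) 0 i (j - 1) := by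
      unfold cf
      rw [e2, HahnSeries.coeff_add, e3, zero_add]
    rw [e4, cf_incl]
    unfold cst
    rw [HahnSeries.C_apply, HahnSeries.coeff_single, if_pos rfl]
    by_cases h : i = 0 ∧ j = 1
    · rw [if_pos h, if_pos ⟨h.1, by rw [h.2, sub_self]⟩]
    · rw [if_neg h, if_neg]
      rintro ⟨h2, h3⟩
      exact h ⟨h2, by omega⟩

end Pool.Agent.L7h65.NQ
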