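import Pool.Agent.L7h65.NQ.Flz

/-!
# Project NQ, parts FLE and FLS (helper65)
-/

namespace Pool.Agent.L7h65.NQ

open Pool.Agent.L7h52.NQ
open Pool.Agent.TH176.Nag (Emp Emp_flat)
open Pool.Agent.TH603.Sur (Sur TZ Sur_flat)
open Pool.Agent.TH469.SX (Fl)
open Pool.Agent.TH864.SX (Slp)

/-- a column of the block -/
theorem col {M q : ℕ} {K : ℝ} {d : ℕ} (h : Slp M q K) {t j T : ℤ} {k : ℕ} (hk : (k : ℤ) ≤ T)
    (hp : ((t, j) : ℤ × ℤ) ∈ Bk M K d) (hp' : ((t, j + T) : ℤ × ℤ) ∈ Bk M K d) :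
    ((t, (k : ℤ)) : ℤ × ℤ) ∈ Fl q K (K * ((2 * d - 1) / 8)) := by
  have hK := h.K0
  have hq : (0 : ℝ) < q := by exact_mod_cast h.hq
  have ht := bk_pos h hp
  obtain ⟨g1, g2, -⟩ := hp
  obtain ⟨-, -, g3⟩ := hp'
  simp only at g1 g2 g3
  have hkR : (k : ℝ) ≤ T := by exact_mod_cast hk
  have hj0 : (0 : ℝ) ≤ j := by exact_mod_cast g1
  push_cast at g3
  have g2' := h.low.1 g2
  have g3' := h.up.1 g3
  have hT : (T : ℝ) ≤ q * t := by linarith
  refine ⟨by simp only; omega, by simp, ?_, ?_⟩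
  · simp only
    have h5 : (k : ℝ) ≤ q * t := by linarith
    have h6 : (k : ℤ) ≤ q * t := by exact_mod_cast h5
    rcases h6.lt_or_eq with h7 | h7
    · exact h7
    · exfalso
      have h8 : (k : ℝ) = q * t := by exact_mod_cast h7
      refine bk_ne (d := d) h (t := t) (z := j) (by omega) ?_
      linarith
  · simp only
    have h6 : K * (k : ℝ) ≤ K * (j + T) := mul_le_mul_of_nonneg_left (by linarith) hK.le
    push_cast
    linarith

theorem s_FLE : S_FLE := by
  intro M q K d ι w h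
  constructor
  · intro hE
    refine Emp_flat (S' := Fl q K (K * ((2 * d - 1) / 8))) 1 0 1 0 (by norm_num) ?_ hE
    rintro ⟨t, j⟩ T k hp hp' hk
    have e : ((1 * t + 0 * j, (k : ℤ)) : ℤ × ℤ) = (t, (k : ℤ)) := by simp
    have e' : ((t - 0 * T, j + 1 * T) : ℤ × ℤ) = (t, j + T) := by simp
    simp only at hp' ⊢
    rw [e]
    rw [e'] at hp'
    exact col h hk hp hp'
  · intro c hE
    refine Emp_flat (S' := Fl q K (K * ((2 * d - 1) / 8)) ∪ {((0, 0) : ℤ × ℤ)}) 1 0 1 0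
      (by norm_num) ?_ hE
    rintro ⟨t, j⟩ T k hp hp' hk
    have e : ((1 * t + 0 * j, (k : ℤ)) : ℤ × ℤ) = (t, (k : ℤ)) := by simp
    have e' : ((t - 0 * T, j + 1 * T) : ℤ × ℤ) = (t, j + T) := by simp
    simp only at hp' ⊢
    rw [e]
    rw [e'] at hp'
    rcases hp with hp | ⟨z1, z2, z3⟩
    · have ht := bk_pos h hp
      rcases hp' with hp' | ⟨z1, z2, z3⟩
      · left
        exact col h hk hp hp'
      · exfalso
        simp only at z1
        omega
    · simp only at z1 z2 z3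
      rcases hp' with hp' | ⟨y1, y2, y3⟩
      · exfalso
        have := bk_pos h hp'
        omega
      · simp only at y1 y2 y3
        right
        have h1 : T = 0 := by linarith
        have h2 : k = 0 := by omega
        rw [h2, z1]
        rfl

theorem s_FLS : S_FLS := by
  intro M q K d ι _ w h hS
  have hM : (0 : ℝ) < M := by exact_mod_cast h.hM
  have hK := h.K0
  have hq : (0 : ℝ) < q := by exact_mod_cast h.hq
  refine Sur_flat (S' := Fl q K (K * ((2 * d - 1) / 8))) 1 0 1 0 (by norm_num) ?_ hS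
  rintro ⟨t, k⟩ ⟨g1, g2, g3, g4⟩
  simp only at g1 g2 g3 g4
  refine ⟨g2, ?_⟩
  obtain ⟨x, hx⟩ : ∃ x : ℝ, x = (2 * (d : ℝ) - 1) / 8 - q * K * t / M := ⟨_, rfl⟩
  refine ⟨max 0 ⌈x⌉, fun s hs1 hs2 => ?_⟩
  have e : ((1 * t - 0 * s, 0 * t + 1 * s) : ℤ × ℤ) = (t, s) := by simp
  simp only at hs2 ⊢
  rw [e]
  refine ⟨(le_max_left _ _).trans hs1, ?_, ?_⟩
  · simp only
    rw [h.low]
    have h5 : (⌈x⌉ : ℝ) ≤ s := by exact_mod_cast (le_max_right _ _).trans hs1
    have h6 := Int.le_ceil x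
    linarith
  · simp only
    rcases le_total ⌈x⌉ 0 with h5 | h5
    · rw [max_eq_left h5] at hs2
      have h6 : (s : ℝ) ≤ k := by
        have : s ≤ k := by omega
        exact_mod_cast this
      have h7 : K * (s : ℝ) ≤ K * k := mul_le_mul_of_nonneg_left h6 hK.le
      linarith
    · rw [max_eq_right h5] at hs2
      rw [h.up]
      have h6 : (s : ℝ) + 1 ≤ ⌈x⌉ + q * t := by
        have h8 : s + 1 ≤ ⌈x⌉ + q * t := by omega
        exact_mod_cast h8
      have h7 := Int.ceil_lt_add_one x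
      linarith

end Pool.Agent.L7h65.NQ
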