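import Pool.Agent.L7h52.NQ.Stm2
import Pool.Agent.TH603.Sur.Flat

/-!
# Project NQ, parts FLZ and ONEZ (helper65)
-/

namespace Pool.Agent.L7h65.NQ

open Pool.Agent.L7h52.NQ
open Pool.Agent.TH176.Nag (Emp Emp_flat)
open Pool.Agent.TH603.Sur (Sur TZ)
open Pool.Agent.TH469.SX (Fl)
open Pool.Agent.TH864.SX (Slp)

/-- a point of the block has positive abscissa -/
theorem bk_pos {M q : ℕ} {K : ℝ} {d : ℕ} (h : Slp M q K) {t j : ℤ}
    (hp : ((t, j) : ℤ × ℤ) ∈ Bk M K d) : 0 < t := by
  obtain ⟨g1, g2, g3⟩ := hp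
  simp only at g1 g2 g3
  have hK := h.K0
  have hMK := h.hMK
  have hM : (0 : ℝ) < M := by exact_mod_cast h.hM
  by_contra hc
  have ht : (t : ℝ) ≤ 0 := by exact_mod_cast not_lt.1 hc
  have e1 : 0 ≤ (M : ℝ) * ((2 * (d : ℝ) - 1) / 8 - j) := by nlinarith
  have e2 : 0 ≤ (2 * (d : ℝ) - 1) / 8 - j := by
    by_contra h1
    push Not at h1
    nlinarith
  have e3 : (2 * (d : ℝ) - 1) / 8 - j ≤ 0 := by
    by_contra h1
    push Not at h1
    have : 0 < (K - M) * ((2 * (d : ℝ) - 1) / 8 - j) := mul_pos (by linarith) h1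
    linarith
  have e4 : 2 * (d : ℝ) - 1 = 8 * j := by linarith
  have e5 : 2 * (d : ℤ) - 1 = 8 * j := by exact_mod_cast e4
  omega

/-- the end of a column is not an integer -/
theorem bk_ne {M q : ℕ} {K : ℝ} {d : ℕ} (h : Slp M q K) {t z : ℤ} (ht : t ≠ 0) :
    (2 * (d : ℝ) - 1) / 8 - q * K * t / M ≠ z := by
  intro h1
  have hM : (0 : ℝ) < M := by exact_mod_cast h.hM
  have hq : (0 : ℝ) < q := by exact_mod_cast h.hq
  have ht' : (t : ℝ) ≠ 0 := by exact_mod_cast ht
  apply h.irr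
  refine ⟨((2 * (d : ℚ) - 1) / 8 - z) * M / (q * t), ?_⟩
  push_cast
  rw [← h1]
  field_simp
  ring

theorem s_FLZ : S_FLZ := by
  intro q K d ι w h hE
  have hM : (0 : ℝ) < (16 : ℕ) := by norm_num
  have hK := h.K0
  have hq : (0 : ℝ) < q := by exact_mod_cast h.hq
  refine Emp_flat (S' := Fl q K (K * ((2 * d - 1) / 8)) ∪ {((-1, 0) : ℤ × ℤ)}) 1 0 1 0
    (by norm_num) ?_ hE
  rintro ⟨t, j⟩ T k hp hp' hk
  have e : ((1 * t + 0 * j, (k : ℤ)) : ℤ × ℤ) = (t, (k : ℤ)) := by simp
  have e' : ((t - 0 * T, j + 1 * T) : ℤ × ℤ) = (t, j + T) := by simp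
  simp only at hp' ⊢
  rw [e]
  rw [e'] at hp'
  rcases hp with hp | ⟨z1, z2, z3⟩
  · have ht := bk_pos h hp
    rcases hp' with hp' | ⟨z1, z2, z3⟩
    · left
      obtain ⟨g1, g2, -⟩ := hp
      obtain ⟨-, -, g3⟩ := hp'
      simp only at g1 g2 g3
      have hkR : (k : ℝ) ≤ T := by exact_mod_cast hk
      have hj0 : (0 : ℝ) ≤ j := by exact_mod_cast g1
      push_cast at g3
      have g2' := h.low.1 g2
      have g3' := h.up.1 g3
      have hT : (T : ℝ) ≤ q * t := by linarith
      refine ⟨by simp only; omega, by simp, ?_, ?_⟩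
      · simp only
        have h5 : (k : ℝ) ≤ q * t := by linarith
        have h6 : (k : ℤ) ≤ q * t := by exact_mod_cast h5
        rcases h6.lt_or_eq with h7 | h7
        · exact h7
        · exfalso
          have h8 : (k : ℝ) = q * t := by exact_mod_cast h7
          refine bk_ne (d := d) h (t := t) (z := j) (by omega) ?_
          linarith
      · simp only
        have h6 : K * (k : ℝ) ≤ K * (j + T) := mul_le_mul_of_nonneg_left (by linarith) hK.le
        push_cast
        linarith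
    · exfalso
      simp only at z1
      omega
  · simp only at z1 z2 z3
    rcases hp' with hp' | ⟨y1, y2, y3⟩
    · exfalso
      have := bk_pos h hp'
      omega
    · simp only at y1 y2 y3
      right
      have h1 : T = 0 := by linarith
      have h2 : k = 0 := by omega
      rw [h2, z1]
      rfl

theorem s_ONEZ : S_ONEZ := by
  intro K d _ hK1 hK2 hd ι w h
  -- the numbers in the rows
  have hrow : ∀ j : ℤ, 0 ≤ j → 4 * j ≤ d → ∃ e : ℕ, (e : ℤ) = d - 4 * j ∧ d - 4 * j.toNat = e ∧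
      (e : ℝ) = d - 4 * j := by
    intro j h1 h2
    refine ⟨d - 4 * j.toNat, by omega, rfl, ?_⟩
    have h3 : ((d - 4 * j.toNat : ℕ) : ℤ) = d - 4 * j := by omega
    exact_mod_cast h3
  have hh2 : ∀ e : ℕ, 2 ≤ e → ((hh e : ℕ) : ℝ) = 4 * e - 2 := by
    intro e he
    have h1 : hh e = 4 * e - 2 := by
      unfold hh
      rw [if_neg (by omega), if_neg (by omega)]
    rw [h1, Nat.cast_sub (by omega)]
    push_cast
    ring
  have hh0 : ((hh 0 : ℕ) : ℝ) = 1 := by
    unfold hh
    norm_num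
  refine h.comap 1 (-8) 0 1 (2 * d - 1) 0 (by norm_num) ?_
  rintro ⟨i, j⟩ ⟨g1, g2, g3, g4⟩
  simp only at g1 g2 g3 g4
  obtain ⟨e, he1, he2, he3⟩ := hrow j g1 g2
  rw [he2] at g3 g4
  obtain ⟨c, hc⟩ := hd
  rcases Nat.eq_zero_or_pos e with h0 | h0
  · subst h0
    rw [hh0] at g3 g4
    have i1 : (-1 : ℝ) < i := by linarith
    have i2 : (i : ℝ) < 1 := by linarith
    have i3 : -1 < i := by exact_mod_cast i1
    have i4 : i < 1 := by exact_mod_cast i2
    have i5 : i = 0 := by omega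
    push_cast at he1
    right
    refine ⟨by simp only; omega, by simp only; omega, by simp only; omega⟩
  · have h5 : 2 ≤ e := by omega
    left
    rw [hh2 e h5] at g3 g4
    refine ⟨by simp only; omega, ?_, ?_⟩
    · simp only
      push_cast
      rw [he3] at g3
      linarith
    · simp only
      push_cast
      rw [he3] at g4
      linarith

end Pool.Agent.L7h65.NQ
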