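import Pool.Agent.L7h52.NQ.Stm3

/-!
# Project NQ, part EX18 (helper65)
-/

namespace Pool.Agent.L7h65.NQ

open Finset Pool.Agent.TH176.Nag Pool.Agent.TH603.Sur Pool.Agent.TH603.Cut Pool.Agent.TH469.SX
open Pool.Agent.L7h52.NQ
open Pool.Agent.TH864.SX (Slp)

/-- the weights of the points -/
theorem sum_upd (m k : ℕ) :
    ∑ i : Fin 18, ((Function.update (fun _ : Fin 18 => m) 0 (m - 1)) i - k) =
      (m - 1 - k) + 17 * (m - k) := by
  rw [Fin.sum_univ_succ, Function.update_self]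
  have h : ∀ i : Fin 17, Function.update (fun _ : Fin 18 => m) 0 (m - 1) i.succ = m := fun i => by
    rw [Function.update_of_ne (Fin.succ_ne_zero i)]
  simp only [h]
  rw [Finset.sum_const, Finset.card_univ, Fintype.card_fin, smul_eq_mul]

/-- the length of a row, one multiplicity lowered -/
theorem row_card18 {m k : ℕ} {K A : ℝ} (hK0 : 0 < K) (hK : (2 : ℕ) * (K * (K - (16 : ℕ))) = (16 : ℕ))
    (hA : 2 * (K + 1) * A < 2 * (K + 1) ^ 2 * m - K) {B : Finset ℤ}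
    (hmem : ∀ c ∈ B, (1 ≤ c ∧ (c : ℝ) ≤ A - (K + (1 : ℕ)) * k) ∨
      (c ≤ 0 ∧ (-c : ℝ) * ((2 : ℕ) * (K + (1 : ℕ)) - 1) ≤ A - (K + (1 : ℕ)) * k - (K + (1 : ℕ)))) :
    B.card ≤ (m - 1 - k) + 17 * (m - k) := by
  push_cast at hK hmem
  obtain ⟨D, hD⟩ : ∃ D : ℝ, D = 2 * K + 1 := ⟨_, rfl⟩
  have hD0 : 0 < D := by rw [hD]; linarith
  have hDe : 2 * (K + 1) - 1 = D := by rw [hD]; ring
  rw [hDe] at hmem
  obtain ⟨y, hy⟩ : ∃ y : ℝ, y = A - (K + 1) * k := ⟨_, rfl⟩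
  rw [← hy] at hmem
  rcases B.eq_empty_or_nonempty with he | hne
  · rw [he]; simp
  obtain ⟨Y, hY⟩ : ∃ Y : ℤ, Y = ⌊y⌋ := ⟨_, rfl⟩
  obtain ⟨U, hU⟩ : ∃ U : ℤ, U = ⌊(y - (K + 1)) / D⌋ := ⟨_, rfl⟩
  have hy1 : 1 ≤ y := by
    obtain ⟨c, hc⟩ := hne
    rcases hmem c hc with ⟨h1, h2⟩ | ⟨h1, h2⟩
    · have : (1 : ℝ) ≤ c := by exact_mod_cast h1
      linarith
    · have h1R : (c : ℝ) ≤ 0 := by exact_mod_cast h1
      have : 0 ≤ (-c : ℝ) * D := mul_nonneg (by linarith) hD0.le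
      linarith
  have hYR : (0 : ℤ) ≤ Y := by rw [hY]; exact Int.floor_nonneg.2 (by linarith)
  have hUR : (-1 : ℤ) ≤ U := by
    rw [hU]
    apply Int.le_floor.2
    rw [le_div_iff₀ hD0, hD]
    push_cast
    nlinarith
  have hYU : B ⊆ Finset.Icc (-U) Y := by
    intro c hc
    rw [Finset.mem_Icc]
    rcases hmem c hc with ⟨h1, h2⟩ | ⟨h1, h2⟩
    · refine ⟨by omega, ?_⟩
      rw [hY]; exact Int.le_floor.2 h2
    · refine ⟨?_, by omega⟩
      have : -c ≤ U := by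
        rw [hU]
        apply Int.le_floor.2
        rw [le_div_iff₀ hD0]
        push_cast
        exact h2
      omega
  have hcB : (B.card : ℤ) ≤ Y + U + 1 := by
    have h1 := card_le_card hYU
    rw [Int.card_Icc] at h1
    omega
  have h2y : 2 * (K + 1) * y < 2 * (K + 1) ^ 2 * ((m : ℝ) - k) - K := by
    rw [hy]
    linarith
  have hkm : k < m := by
    by_contra hcon
    have h1 : (m : ℝ) ≤ k := by exact_mod_cast not_lt.1 hcon
    have h2 : 2 * (K + 1) ^ 2 * ((m : ℝ) - k) ≤ 0 :=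
      mul_nonpos_of_nonneg_of_nonpos (by positivity) (by linarith)
    nlinarith
  have hid : 2 * (K + 1) ^ 2 = 18 * D := by
    rw [hD]
    linear_combination hK
  have hsum : ((Y + U + 1 : ℤ) : ℝ) < 18 * ((m : ℝ) - k) := by
    have h1 := Int.floor_le y
    have h2 := Int.floor_le ((y - (K + 1)) / D)
    rw [← hY] at h1
    rw [← hU] at h2
    rw [le_div_iff₀ hD0] at h2
    push_cast
    have h3 : ((Y : ℝ) + U + 1) * D < (18 * ((m : ℝ) - k)) * D := by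
      have h4 : (Y : ℝ) * D ≤ y * D := mul_le_mul_of_nonneg_right h1 hD0.le
      have h6 : ((Y : ℝ) + U + 1) * D ≤ 2 * (K + 1) * y + K := by
        have e2 : y * D + (y - (K + 1)) + D = 2 * (K + 1) * y + K := by rw [hD]; ring
        linarith
      have h7 : 2 * (K + 1) ^ 2 * ((m : ℝ) - k) = (18 * ((m : ℝ) - k)) * D := by
        rw [hid]; ring
      linarith
    exact lt_of_mul_lt_mul_right h3 hD0.le
  have hsumZ : Y + U + 1 < 18 * ((m : ℤ) - k) := by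
    have : ((Y + U + 1 : ℤ) : ℝ) < ((18 * ((m : ℤ) - k) : ℤ) : ℝ) := by
      push_cast at hsum ⊢
      exact hsum
    exact Int.cast_lt.1 this
  omega

theorem s_EX18 : S_EX18 := by
  intro K A m h hm hA
  refine Emp_slabs 1 (-((1 : ℕ) : ℤ)) 1 0 (by ring) fun k B hB => ?_
  rw [sum_upd]
  refine row_card18 h.K0 h.eq hA fun c hc => ?_
  obtain ⟨s, T, hT, h1, h2⟩ := hB c hc
  simp only [one_mul, zero_mul, neg_mul, sub_neg_eq_add, zero_add] at h1 h2
  exact mem_row (p := 1) (q := 2) (by norm_num) h.K0 hT h1 h2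

end Pool.Agent.L7h65.NQ
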